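import Pool.Agent.helper62.W3.SpecA
import Pool.Agent.helper70.GD.BV

set_option autoImplicit false

namespace Pool.Agent.EC

open Finset ArithmeticFunction
open GD (kp ks)

theorem KKD : KKD_stmt := by
  intro M a R I j hM ha _ hI
  have h1 := GD.BV_steps R M a j I
  have h2 := GD.BV_full hM (R * 2 ^ I) a j ha (by rw [mul_comm]; exact hI)
  unfold KK
  rw [← h2, h1, add_sub_cancel_left]
  refine Finset.sum_congr rfl fun i _ => ?_
  rw [mul_comm]

end Pool.Agent.EC
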