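import Pool.Agent.helper62.W3.SpecA

set_option autoImplicit false

namespace Pool.Agent.EC

open Finset ArithmeticFunction
open Pool.Agent.CH (Win rgh dl eU Mo ClP ClB)

private theorem NRP_card (N : ℕ) (y : ℝ) (S : Finset ℕ)
    (hS : ∀ j ∈ S, j ≤ (N + 1) ^ 3 ∧ IsPrimePow j ∧ ∃ p : ℕ, p.Prime ∧ p ∣ j ∧ (p : ℝ) ≤ y) :
    #S ≤ (⌊y⌋₊ + 1) * (Nat.log 2 ((N + 1) ^ 3) + 1) := by
  have hsub : S ⊆ ((range (⌊y⌋₊ + 1)) ×ˢ (range (Nat.log 2 ((N + 1) ^ 3) + 1))).image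
      (fun w : ℕ × ℕ => w.1 ^ w.2) := by
    intro j hj
    obtain ⟨h1, h2, q, hq, hqj, hqy⟩ := hS j hj
    obtain ⟨p, k, hp, hk, rfl⟩ := (isPrimePow_nat_iff _).1 h2
    have hqp : q = p := (Nat.prime_dvd_prime_iff_eq hq hp).1 (hq.dvd_of_dvd_pow hqj)
    rw [Finset.mem_image]
    refine ⟨(p, k), ?_, rfl⟩
    rw [mem_product, mem_range, mem_range]
    constructor
    · show p < ⌊y⌋₊ + 1
      rw [← hqp]
      exact Nat.lt_succ_of_le (Nat.le_floor hqy)
    · show k < Nat.log 2 ((N + 1) ^ 3) + 1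
      apply Nat.lt_succ_of_le
      apply Nat.le_log_of_pow_le (by norm_num)
      exact (Nat.pow_le_pow_left hp.two_le k).trans h1
  calc #S ≤ _ := Finset.card_le_card hsub
    _ ≤ #((range (⌊y⌋₊ + 1)) ×ˢ (range (Nat.log 2 ((N + 1) ^ 3) + 1))) := Finset.card_image_le
    _ = _ := by rw [Finset.card_product, card_range, card_range]

private theorem NRP_num (n L y K : ℝ) (hn : 0 < n) (hL : Real.log n = L) (hL0 : (50 : ℝ) ^ 20 ≤ L)
    (hy : y = Real.exp (L ^ (19 / 20 : ℝ))) (hK : K ≤ 10 * L) (hK0 : 0 ≤ K) :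
    (y + 1) * K * (6 * L) ≤ n ^ (1 / 10 : ℝ) := by
  have hLpos : 0 < L := lt_of_lt_of_le (by positivity) hL0
  have hnexp : n = Real.exp L := by rw [← hL, Real.exp_log hn]
  have h1 : L ^ (19 / 20 : ℝ) ≤ L / 50 := by
    have h2 : (50 : ℝ) ≤ L ^ (1 / 20 : ℝ) := by
      have h3 : ((50 : ℝ) ^ 20) ^ (1 / 20 : ℝ) ≤ L ^ (1 / 20 : ℝ) :=
        Real.rpow_le_rpow (by positivity) hL0 (by norm_num)
      have h4 : ((50 : ℝ) ^ 20) ^ (1 / 20 : ℝ) = 50 := by
        rw [← Real.rpow_natCast, ← Real.rpow_mul (by norm_num)]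
        norm_num
      linarith
    have h5 : L ^ (19 / 20 : ℝ) * L ^ (1 / 20 : ℝ) = L := by
      rw [← Real.rpow_add hLpos]
      norm_num
    have h6 : 0 < L ^ (19 / 20 : ℝ) := Real.rpow_pos_of_pos hLpos _
    nlinarith
  have hy1 : y ≤ Real.exp (L / 50) := by rw [hy]; exact Real.exp_le_exp.2 h1
  have hy0 : 1 ≤ y := by
    rw [hy]
    exact Real.one_le_exp (Real.rpow_nonneg hLpos.le _)
  have hLe : L ≤ 50 * Real.exp (L / 50) := by
    have := Real.add_one_le_exp (L / 50)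
    linarith
  set w : ℝ := Real.exp (L / 50) with hw
  have hw1 : (300000 : ℝ) ≤ w := by
    have h7 := Real.add_one_le_exp (L / 50)
    have h8 : (50 : ℝ) ^ 20 / 50 ≤ L / 50 := by linarith
    have h9 : (300000 : ℝ) ≤ (50 : ℝ) ^ 20 / 50 := by norm_num
    linarith
  have hn10 : n ^ (1 / 10 : ℝ) = w ^ 5 := by
    rw [hnexp, hw, ← Real.exp_mul, ← Real.exp_nat_mul]
    congr 1
    push_cast
    ring
  rw [hn10]
  have hw0 : 0 < w := by linarith
  calc (y + 1) * K * (6 * L) ≤ (2 * w) * (10 * L) * (6 * L) := by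
        have h10 : y + 1 ≤ 2 * w := by linarith
        have h11 : (y + 1) * K ≤ (2 * w) * (10 * L) := mul_le_mul h10 hK hK0 (by positivity)
        exact mul_le_mul_of_nonneg_right h11 (by positivity)
    _ = 120 * w * L ^ 2 := by ring
    _ ≤ 120 * w * (50 * w) ^ 2 := by
        apply mul_le_mul_of_nonneg_left _ (by positivity)
        exact pow_le_pow_left₀ hLpos.le hLe 2
    _ = 300000 * w ^ 3 := by ring
    _ ≤ w * w ^ 3 := mul_le_mul_of_nonneg_right hw1 (by positivity)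
    _ = w ^ 4 := by ring
    _ ≤ w ^ 5 := pow_le_pow_right₀ (by linarith) (by norm_num)

theorem NRP : NRP_stmt := by
  classical
  refine ⟨⌈Real.exp ((50 : ℝ) ^ 20)⌉₊, fun N hN => ?_⟩
  have hNr : Real.exp ((50 : ℝ) ^ 20) ≤ (N : ℝ) := (Nat.le_ceil _).trans (by exact_mod_cast hN)
  have hN0 : (0 : ℝ) < N := lt_of_lt_of_le (Real.exp_pos _) hNr
  have hL : (50 : ℝ) ^ 20 ≤ Real.log N := by
    rw [Real.le_log_iff_exp_le hN0]; exact hNr
  have hN1 : (1 : ℝ) ≤ N := by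
    have : (1 : ℕ) ≤ N := by exact_mod_cast hN0
    exact_mod_cast this
  have hLpos : 0 < Real.log N := lt_of_lt_of_le (by positivity) hL
  have hlog2 : Real.log (((N : ℝ) + 1) ^ 3) ≤ 6 * Real.log N := by
    have h1 : (N : ℝ) + 1 ≤ N * N := by
      have h2 : (50 : ℝ) ^ 20 + 1 ≤ N := (Real.add_one_le_exp _).trans hNr
      have h3 : (2 : ℝ) ≤ (50 : ℝ) ^ 20 := by norm_num
      nlinarith
    have h4 : ((N : ℝ) + 1) ^ 3 ≤ (N : ℝ) ^ 6 := by
      calc ((N : ℝ) + 1) ^ 3 ≤ ((N : ℝ) * N) ^ 3 := pow_le_pow_left₀ (by positivity) h1 3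
        _ = (N : ℝ) ^ 6 := by ring
    calc Real.log (((N : ℝ) + 1) ^ 3) ≤ Real.log ((N : ℝ) ^ 6) := Real.log_le_log (by positivity) h4
      _ = 6 * Real.log N := by rw [Real.log_pow]; norm_num
  rw [← Finset.sum_filter_ne_zero]
  refine (Finset.sum_le_card_nsmul _ _ (6 * Real.log N) ?_).trans ?_
  · intro j hj
    have h1 := (mem_filter.1 (mem_filter.1 hj).1).1
    rw [Pool.Agent.CH.Win, mem_Ioc] at h1
    refine vonMangoldt_le_log.trans (le_trans ?_ hlog2)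
    apply Real.log_le_log
    · exact_mod_cast (lt_of_le_of_lt (Nat.zero_le _) h1.1)
    · exact_mod_cast h1.2
  · rw [nsmul_eq_mul]
    have hcard := NRP_card N (yN N) ((filter (fun j => ¬ rgh (yN N) j) (Win N)).filter
      fun j => vonMangoldt j ≠ 0) (fun j hj => by
      have h1 := (mem_filter.1 (mem_filter.1 hj).1).1
      have h2 := (mem_filter.1 (mem_filter.1 hj).1).2
      have h3 := (mem_filter.1 hj).2
      rw [Pool.Agent.CH.Win, mem_Ioc] at h1
      refine ⟨h1.2, vonMangoldt_ne_zero_iff.1 h3, ?_⟩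
      by_contra h4
      push Not at h4
      exact h2 ⟨by omega, fun p hp hpj => h4 p hp hpj⟩)
    have hy0 : 0 ≤ yN N := (Real.exp_pos _).le
    have hK : ((Nat.log 2 ((N + 1) ^ 3) + 1 : ℕ) : ℝ) ≤ 10 * Real.log N := by
      have h1 : 2 ^ Nat.log 2 ((N + 1) ^ 3) ≤ (N + 1) ^ 3 :=
        Nat.pow_log_le_self 2 (by positivity)
      have h2 : (2 : ℝ) ^ Nat.log 2 ((N + 1) ^ 3) ≤ ((N : ℝ) + 1) ^ 3 := by exact_mod_cast h1
      have h3 := Real.log_le_log (by positivity) h2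
      rw [Real.log_pow] at h3
      have h4 : (0.69 : ℝ) ≤ Real.log 2 := by linarith [Real.log_two_gt_d9]
      push_cast
      have h5 : (0 : ℝ) ≤ (Nat.log 2 ((N + 1) ^ 3) : ℝ) := by positivity
      have h6 : (10 : ℝ) ≤ Real.log N := by
        have : (10 : ℝ) ≤ (50 : ℝ) ^ 20 := by norm_num
        linarith
      nlinarith
    have h7 := NRP_num N (Real.log N) (yN N) _ hN0 rfl hL rfl hK (by positivity)
    refine le_trans ?_ h7
    refine mul_le_mul_of_nonneg_right ?_ (by positivity)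
    refine (Nat.cast_le.2 hcard).trans ?_
    rw [Nat.cast_mul]
    refine mul_le_mul_of_nonneg_right ?_ (by positivity)
    push_cast
    linarith [Nat.floor_le hy0]

end Pool.Agent.EC
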