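import Pool.Agent.helper62.W3.SpecA

set_option autoImplicit false

namespace Pool.Agent.EC

open Finset ArithmeticFunction
open Pool.Agent.CH (Win rgh dl eU Mo ClP ClB)
open GD (kp ks)

private theorem SMP_big (k : ℕ) : ∃ N₀ : ℕ, ∀ N : ℕ, N₀ ≤ N → 4 * Real.log N ^ k ≤ (N : ℝ) := by
  have h1 := (Real.isLittleO_pow_log_id_atTop (n := k)).bound (show (0 : ℝ) < 1 / 4 by norm_num)
  have h2 := tendsto_natCast_atTop_atTop (R := ℝ) |>.eventually h1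
  obtain ⟨N₀, h3⟩ := Filter.eventually_atTop.1 h2
  refine ⟨N₀ + 1, fun N hN => ?_⟩
  have h4 := h3 N (by omega)
  have hN1 : (1 : ℝ) ≤ N := by exact_mod_cast (by omega : 1 ≤ N)
  rw [Real.norm_of_nonneg (pow_nonneg (Real.log_nonneg hN1) k), id,
    Real.norm_of_nonneg (by linarith)] at h4
  linarith

theorem SMP (h1 : SCL_stmt) (h2 : SCE_stmt) (h3 : NRP_stmt) (h4 : KKS_stmt) (h5 : TRB_stmt) :
    SMP_stmt := by
  classical
  obtain ⟨-, -, hks, -⟩ := h4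
  obtain ⟨hf, -, -⟩ := h5
  obtain ⟨N₃, hN₃⟩ := h3
  intro A B C
  obtain ⟨N₁, hN₁⟩ := h1 (A + 1) B
  obtain ⟨N₂, hN₂⟩ := h2 (A + 1) B C
  obtain ⟨N₄, hN₄⟩ := SMP_big (2 * B + A)
  refine ⟨max (max N₁ N₂) (max N₃ (max N₄ ⌈Real.exp 4⌉₊)), fun N hN M a R hM hM2 ha hR hRB => ?_⟩
  have e1 : N₁ ≤ N := (le_max_left _ _).trans ((le_max_left _ _).trans hN)
  have e2 : N₂ ≤ N := (le_max_right _ _).trans ((le_max_left _ _).trans hN)
  have e3 : N₃ ≤ N := (le_max_left _ _).trans ((le_max_right _ _).trans hN)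
  have e4 : N₄ ≤ N :=
    (le_max_left _ _).trans ((le_max_right _ _).trans ((le_max_right _ _).trans hN))
  have e5 : ⌈Real.exp 4⌉₊ ≤ N :=
    (le_max_right _ _).trans ((le_max_right _ _).trans ((le_max_right _ _).trans hN))
  have hNe : Real.exp 4 ≤ (N : ℝ) := (Nat.le_ceil _).trans (by exact_mod_cast e5)
  have hN0 : (0 : ℝ) < N := lt_of_lt_of_le (Real.exp_pos _) hNe
  have hL : 4 ≤ Real.log N := by rw [Real.le_log_iff_exp_le hN0]; exact hNe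
  have hN1 : (1 : ℝ) ≤ N := by
    have : (1 : ℝ) ≤ Real.exp 4 := Real.one_le_exp (by norm_num)
    linarith
  set L := Real.log N with hLd
  have hL0 : 0 < L := by linarith
  have hφ : 0 < (Nat.totient M : ℝ) := by exact_mod_cast Nat.totient_pos.2 hM
  have b1 := hN₁ N e1 M a R hM hM2 ha hR hRB
  have b2 := hN₂ N e2 M a R hM hM2 ha hR hRB
  have b3 := hN₃ N e3
  have b4 := hN₄ N e4
  set S := (Win N).filter fun j => ¬ rgh (yN N) j with hS
  have hsplit : ∀ (w : ℕ → ℝ), ∑ j ∈ Win N, mnf C N j * fN N j * w j =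
      ∑ j ∈ Win N, vonMangoldt j * fN N j * w j - ∑ j ∈ Win N, edg C N j * fN N j * w j -
        ∑ j ∈ S, vonMangoldt j * fN N j * w j := by
    intro w
    rw [hS, Finset.sum_filter, ← Finset.sum_sub_distrib, ← Finset.sum_sub_distrib]
    refine Finset.sum_congr rfl fun j _ => ?_
    unfold mnf
    by_cases hj : rgh (yN N) j
    · rw [if_pos hj, if_neg (not_not.2 hj)]
      ring
    · rw [if_neg hj, if_pos hj]
      ring
  have hs1 := hsplit fun j => ks R M a j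
  have hs2 := hsplit fun _ => 1
  simp only [mul_one] at hs2
  have c1 : |∑ j ∈ S, vonMangoldt j * fN N j * ks R M a j| ≤
      (R : ℝ) ^ 2 / (Nat.totient M : ℝ) * (N : ℝ) ^ (1 / 10 : ℝ) := by
    calc |∑ j ∈ S, vonMangoldt j * fN N j * ks R M a j|
        ≤ ∑ j ∈ S, |vonMangoldt j * fN N j * ks R M a j| := Finset.abs_sum_le_sum_abs _ _
      _ ≤ ∑ j ∈ S, (R : ℝ) ^ 2 / (Nat.totient M : ℝ) * vonMangoldt j := by
          refine Finset.sum_le_sum fun j _ => ?_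
          obtain ⟨f0, f1⟩ := hf N j
          have v0 : 0 ≤ vonMangoldt j := vonMangoldt_nonneg
          rw [abs_mul, abs_mul, abs_of_nonneg v0, abs_of_nonneg f0]
          have k1 := hks R M a j hM
          calc vonMangoldt j * fN N j * |ks R M a j|
              ≤ vonMangoldt j * 1 * ((R : ℝ) ^ 2 / (Nat.totient M : ℝ)) := by gcongr
            _ = _ := by ring
      _ = (R : ℝ) ^ 2 / (Nat.totient M : ℝ) * ∑ j ∈ S, vonMangoldt j := by rw [Finset.mul_sum]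
      _ ≤ _ := mul_le_mul_of_nonneg_left b3 (by positivity)
  have c2 : |∑ j ∈ S, vonMangoldt j * fN N j| ≤ (N : ℝ) ^ (1 / 10 : ℝ) := by
    calc |∑ j ∈ S, vonMangoldt j * fN N j|
        ≤ ∑ j ∈ S, |vonMangoldt j * fN N j| := Finset.abs_sum_le_sum_abs _ _
      _ ≤ ∑ j ∈ S, vonMangoldt j := by
          refine Finset.sum_le_sum fun j _ => ?_
          obtain ⟨f0, f1⟩ := hf N j
          have v0 : 0 ≤ vonMangoldt j := vonMangoldt_nonneg
          rw [abs_mul, abs_of_nonneg v0, abs_of_nonneg f0]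
          nlinarith
      _ ≤ _ := b3
  rw [hs1, hs2]
  set X1 := ∑ j ∈ Win N, vonMangoldt j * fN N j * ks R M a j
  set X2 := ∑ j ∈ Win N, vonMangoldt j * fN N j
  set Y1 := ∑ j ∈ Win N, edg C N j * fN N j * ks R M a j
  set Y2 := ∑ j ∈ Win N, edg C N j * fN N j
  set Z1 := ∑ j ∈ S, vonMangoldt j * fN N j * ks R M a j
  set Z2 := ∑ j ∈ S, vonMangoldt j * fN N j
  set φ : ℝ := (Nat.totient M : ℝ) with hφd
  -- the powers
  have p1 : (N : ℝ) ^ (1 / 10 : ℝ) ≤ N := by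
    calc (N : ℝ) ^ (1 / 10 : ℝ) ≤ (N : ℝ) ^ (1 : ℝ) :=
          Real.rpow_le_rpow_of_exponent_le hN1 (by norm_num)
      _ = N := Real.rpow_one _
  have hN10 : 0 ≤ (N : ℝ) ^ (1 / 10 : ℝ) := Real.rpow_nonneg hN0.le _
  have hR2 : (R : ℝ) ^ 2 ≤ L ^ (2 * B) := by
    rw [mul_comm 2 B, pow_mul]
    exact pow_le_pow_left₀ (by positivity) hRB 2
  have hLB : 1 ≤ L ^ (2 * B) := one_le_pow₀ (by linarith)
  have p2 : ((R : ℝ) ^ 2 + 1) * (N : ℝ) ^ (1 / 10 : ℝ) ≤ (N : ℝ) ^ 2 / (2 * L ^ A) := by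
    rw [le_div_iff₀ (by positivity)]
    calc ((R : ℝ) ^ 2 + 1) * (N : ℝ) ^ (1 / 10 : ℝ) * (2 * L ^ A)
        ≤ (2 * L ^ (2 * B)) * N * (2 * L ^ A) := by
          have : (R : ℝ) ^ 2 + 1 ≤ 2 * L ^ (2 * B) := by linarith
          gcongr
      _ = (4 * L ^ (2 * B + A)) * N := by rw [pow_add]; ring
      _ ≤ N * N := mul_le_mul_of_nonneg_right b4 hN0.le
      _ = (N : ℝ) ^ 2 := by ring
  have p3 : (N : ℝ) ^ 2 / L ^ (A + 1) ≤ (N : ℝ) ^ 2 / (4 * L ^ A) := by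
    apply div_le_div_of_nonneg_left (by positivity) (by positivity)
    rw [pow_succ]
    have : 0 < L ^ A := by positivity
    nlinarith
  have q1 : |X1 - 1 / φ * X2| ≤ 1 / φ * ((N : ℝ) ^ 2 / (4 * L ^ A)) :=
    b1.trans (mul_le_mul_of_nonneg_left p3 (by positivity))
  have q2 : |Y1 - 1 / φ * Y2| ≤ 1 / φ * ((N : ℝ) ^ 2 / (4 * L ^ A)) :=
    b2.trans (mul_le_mul_of_nonneg_left p3 (by positivity))
  have q3 : |Z1 - 1 / φ * Z2| ≤ 1 / φ * ((N : ℝ) ^ 2 / (2 * L ^ A)) := by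
    calc |Z1 - 1 / φ * Z2| ≤ |Z1| + |1 / φ * Z2| := abs_sub _ _
      _ ≤ (R : ℝ) ^ 2 / φ * (N : ℝ) ^ (1 / 10 : ℝ) + 1 / φ * (N : ℝ) ^ (1 / 10 : ℝ) := by
          refine add_le_add c1 ?_
          rw [abs_mul, abs_of_pos (by positivity : 0 < 1 / φ)]
          exact mul_le_mul_of_nonneg_left c2 (by positivity)
      _ = 1 / φ * (((R : ℝ) ^ 2 + 1) * (N : ℝ) ^ (1 / 10 : ℝ)) := by ring
      _ ≤ _ := mul_le_mul_of_nonneg_left p2 (by positivity)
  have hfin : 1 / φ * ((N : ℝ) ^ 2 / L ^ A) = 1 / φ * ((N : ℝ) ^ 2 / (4 * L ^ A)) +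
      1 / φ * ((N : ℝ) ^ 2 / (4 * L ^ A)) + 1 / φ * ((N : ℝ) ^ 2 / (2 * L ^ A)) := by
    field_simp
    ring
  rw [hfin]
  rw [abs_le] at q1 q2 q3 ⊢
  constructor <;> linarith [q1.1, q1.2, q2.1, q2.2, q3.1, q3.2]

end Pool.Agent.EC
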