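import Pool.Agent.helper62.W3.SpecA

set_option autoImplicit false

namespace Pool.Agent.EC

open Finset ArithmeticFunction
open Pool.Agent.CH (Win rgh dl eU Mo ClP ClB)
open Pool.Agent.helper85.BVP (trunc beta Mr Zr)
open GD (kp ks)

theorem TII (h1 : BIM_stmt) (h2 : VBD_stmt) : TII_stmt := by
  obtain ⟨-, -, N₂, hV⟩ := h2
  intro ε A hε hε'
  obtain ⟨B, C, N₁, hB⟩ := h1 ε (A + 1) 5 hε hε'
  refine ⟨B, C, max N₁ (max N₂ ⌈Real.exp 2⌉₊), fun N hN r R hR => ?_⟩
  have e1 : N₁ ≤ N := (le_max_left _ _).trans hN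
  have e2 : N₂ ≤ N := (le_max_left _ _).trans ((le_max_right _ _).trans hN)
  have e3 : ⌈Real.exp 2⌉₊ ≤ N := (le_max_right _ _).trans ((le_max_right _ _).trans hN)
  have hNe : Real.exp 2 ≤ (N : ℝ) := (Nat.le_ceil _).trans (by exact_mod_cast e3)
  have hN0 : (0 : ℝ) < N := lt_of_lt_of_le (Real.exp_pos _) hNe
  have hL : 2 ≤ Real.log N := by rw [Real.le_log_iff_exp_le hN0]; exact hNe
  set L := Real.log N with hLd
  have hL0 : 0 < L := by linarith
  have hsup : ∀ (f : ℕ → ℝ) (a : ℕ), rst N (UN C N) f a ≠ 0 → (N : ℝ) * Real.log N ^ C ≤ a := by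
    intro f a ha
    unfold rst at ha
    by_cases h3 : rgh (yN N) a ∧ UN C N < a
    · have h4 := h3.2
      unfold UN at h4
      exact (Nat.lt_of_floor_lt h4).le
    · rw [if_neg h3] at ha
      exact absurd rfl ha
  have hv : ∀ Y : ℕ, Y ≤ 64 * N ^ 3 → _ := fun Y hY => hV N e2 (UN C N) Y hY
  have b1 := hB N e1 r R hR (rst N (UN C N) fun b => vonMangoldt b)
    (rst N (UN C N) fun k => beta (UN C N) k) (hsup _) (hsup _) (fun Y hY => (hv Y hY).1)
    (fun Y hY => (hv Y hY).2.1)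
  have b2 := hB N e1 r R hR (rst N (UN C N) fun k => eU (UN C N) k)
    (rst N (UN C N) fun _ => 1) (hsup _) (hsup _) (fun Y hY => (hv Y hY).2.2.1)
    (fun Y hY => (hv Y hY).2.2.2)
  have hterm : ∀ m : ℕ, |∑ j ∈ Win N, tII C N j * fN N j * kp R (30 * m) (r m) j| ≤
      |∑ j ∈ Win N, cvl (rst N (UN C N) fun b => vonMangoldt b)
        (rst N (UN C N) fun k => beta (UN C N) k) j * fN N j * kp R (30 * m) (r m) j| +
      |∑ j ∈ Win N, cvl (rst N (UN C N) fun k => eU (UN C N) k)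
        (rst N (UN C N) fun _ => 1) j * fN N j * kp R (30 * m) (r m) j| := by
    intro m
    refine le_trans (le_of_eq ?_) (abs_sub _ _)
    rw [← Finset.sum_sub_distrib]
    congr 1
    refine Finset.sum_congr rfl fun j _ => ?_
    unfold tII
    ring
  refine (Finset.sum_le_sum fun m _ => hterm m).trans ?_
  rw [Finset.sum_add_distrib]
  refine (add_le_add b1 b2).trans ?_
  have h3 : (N : ℝ) ^ 2 / L ^ (A + 1) ≤ (N : ℝ) ^ 2 / (2 * L ^ A) := by
    apply div_le_div_of_nonneg_left (by positivity) (by positivity)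
    rw [pow_succ]
    have : 0 < L ^ A := by positivity
    nlinarith
  have h4 : (N : ℝ) ^ 2 / L ^ A = (N : ℝ) ^ 2 / (2 * L ^ A) + (N : ℝ) ^ 2 / (2 * L ^ A) := by
    field_simp
    ring
  rw [h4]
  exact add_le_add h3 h3

end Pool.Agent.EC
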