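import Pool.Agent.helper62.W3.SpecA
import Pool.Agent.helper85.BVP.Boxes

set_option autoImplicit false

namespace Pool.Agent.EC

open Finset ArithmeticFunction
open Pool.Agent.CH (Win rgh dl eU Mo ClP ClB)
open Pool.Agent.helper85.BVP (trunc beta Mr Zr)

private theorem VID_big (k : ℕ) : ∃ N₀ : ℕ, ∀ N : ℕ, N₀ ≤ N → 4 * Real.log N ^ k ≤ (N : ℝ) := by
  have h1 := (Real.isLittleO_pow_log_id_atTop (n := k)).bound (show (0 : ℝ) < 1 / 4 by norm_num)
  have h2 := tendsto_natCast_atTop_atTop (R := ℝ) |>.eventually h1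
  obtain ⟨N₀, h3⟩ := Filter.eventually_atTop.1 h2
  refine ⟨N₀ + 1, fun N hN => ?_⟩
  have h4 := h3 N (by omega)
  have hN1 : (1 : ℝ) ≤ N := by exact_mod_cast (by omega : 1 ≤ N)
  rw [Real.norm_of_nonneg (pow_nonneg (Real.log_nonneg hN1) k), id,
    Real.norm_of_nonneg (by linarith)] at h4
  linarith

/-- divisors of rough numbers are rough -/
private theorem VID_rgh (y : ℝ) (j : ℕ) (hj : rgh y j) (w : ℕ × ℕ) (hw : w ∈ j.divisorsAntidiagonal) :
    rgh y w.1 ∧ rgh y w.2 := by
  obtain ⟨h1, h2⟩ := Nat.mem_divisorsAntidiagonal.1 hw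
  have h3 : w.1 ≠ 0 := by
    intro h
    rw [h, zero_mul] at h1
    exact h2 h1.symm
  have h4 : w.2 ≠ 0 := by
    intro h
    rw [h, mul_zero] at h1
    exact h2 h1.symm
  exact ⟨⟨h3, fun p hp hd => hj.2 p hp (h1 ▸ hd.mul_right _)⟩,
    ⟨h4, fun p hp hd => hj.2 p hp (h1 ▸ hd.mul_left _)⟩⟩

private theorem VID_rgh' (y : ℝ) (j : ℕ) (w : ℕ × ℕ) (hw : w ∈ j.divisorsAntidiagonal)
    (h1 : rgh y w.1) (h2 : rgh y w.2) : rgh y j := by
  obtain ⟨h3, h4⟩ := Nat.mem_divisorsAntidiagonal.1 hw
  refine ⟨h4, fun p hp hd => ?_⟩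
  rw [← h3] at hd
  rcases (hp.dvd_mul).1 hd with h5 | h5
  · exact h1.2 p hp h5
  · exact h2.2 p hp h5

theorem VID (h1 : VBD_stmt) : VID_stmt := by
  classical
  have _ := h1
  intro C
  obtain ⟨N₀, hN₀⟩ := VID_big (2 * C)
  refine ⟨N₀ + 1, fun N hN j hj => ?_⟩
  have hbig := hN₀ N (by omega)
  have hN1 : 1 ≤ N := by omega
  have hN1r : (1 : ℝ) ≤ N := by exact_mod_cast hN1
  have hL0 : 0 ≤ Real.log N := Real.log_nonneg hN1r
  rw [Pool.Agent.CH.Win, mem_Ioc] at hj
  set U := UN C N with hU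
  have hUr : (U : ℝ) ≤ (N : ℝ) * Real.log N ^ C := Nat.floor_le (by positivity)
  have hU2 : U ^ 2 < j := by
    have h2 : (U : ℝ) ^ 2 ≤ (N : ℝ) ^ 3 := by
      calc (U : ℝ) ^ 2 ≤ ((N : ℝ) * Real.log N ^ C) ^ 2 := pow_le_pow_left₀ (by positivity) hUr 2
        _ = (N : ℝ) ^ 2 * Real.log N ^ (2 * C) := by rw [mul_pow, ← pow_mul, mul_comm C 2]
        _ ≤ (N : ℝ) ^ 2 * N := by
            apply mul_le_mul_of_nonneg_left _ (by positivity)
            have : 0 ≤ Real.log N ^ (2 * C) := by positivity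
            linarith
        _ = (N : ℝ) ^ 3 := by ring
    have h3 : U ^ 2 ≤ N ^ 3 := by exact_mod_cast h2
    omega
  have hUj : U < j := lt_of_le_of_lt (Nat.le_self_pow (by norm_num) U) hU2
  have hj0 : j ≠ 0 := by omega
  by_cases hr : rgh (yN N) j
  · -- rough j
    have hd := VID_rgh (yN N) j hr
    have e1 : tyI N U 1 (fun d => ((moebius d : ℤ) : ℝ)) j = (trunc Mr U * ArithmeticFunction.log) j := by
      unfold tyI
      rw [if_pos hr, mul_apply, Nat.sum_divisorsAntidiagonal
        (fun a b => trunc Mr U a * ArithmeticFunction.log b), Finset.sum_filter]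
      refine Finset.sum_congr rfl fun d _ => ?_
      rw [Pool.Agent.helper85.BVP.trunc_apply]
      split_ifs
      · rw [pow_one, log_apply]
        rfl
      · rw [zero_mul]
    have e2 : tyI N U 0 (fun d => eU U d) j =
        ∑ w ∈ j.divisorsAntidiagonal, if w.1 ≤ U then eU U w.1 else 0 := by
      unfold tyI
      rw [if_pos hr, Nat.sum_divisorsAntidiagonal (fun a _ => if a ≤ U then eU U a else 0),
        Finset.sum_filter]
      refine Finset.sum_congr rfl fun d _ => ?_
      rw [pow_zero, mul_one]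
    have e3 : edg C N j = - ∑ w ∈ j.divisorsAntidiagonal, if w.2 ≤ U then eU U w.1 else 0 := by
      unfold edg
      rw [if_pos hr, Nat.sum_divisorsAntidiagonal' (fun a c => if c ≤ U then eU U a else 0),
        Finset.sum_filter]
    have e4 : cvl (rst N U fun b => vonMangoldt b) (rst N U fun k => beta U k) j =
        ((vonMangoldt - trunc vonMangoldt U) * beta U) j := by
      unfold cvl
      rw [mul_apply]
      refine Finset.sum_congr rfl fun w hw => ?_
      unfold rst
      have h5 : (vonMangoldt - trunc vonMangoldt U) w.1 = if U < w.1 then vonMangoldt w.1 else 0 := by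
        show vonMangoldt w.1 - trunc vonMangoldt U w.1 = _
        rw [Pool.Agent.helper85.BVP.trunc_apply]
        by_cases h6 : w.1 ≤ U
        · rw [if_pos h6, if_neg (by omega), sub_self]
        · rw [if_neg h6, if_pos (by omega), sub_zero]
      rw [h5]
      have h7 : (if rgh (yN N) w.1 ∧ U < w.1 then vonMangoldt w.1 else 0) =
          if U < w.1 then vonMangoldt w.1 else 0 := by
        by_cases h6 : U < w.1
        · rw [if_pos h6, if_pos ⟨(hd w hw).1, h6⟩]
        · rw [if_neg h6, if_neg fun h => h6 h.2]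
      have h8 : (if rgh (yN N) w.2 ∧ U < w.2 then beta U w.2 else 0) = beta U w.2 := by
        by_cases h6 : U < w.2
        · rw [if_pos ⟨(hd w hw).2, h6⟩]
        · rw [if_neg fun h => h6 h.2, Pool.Agent.helper85.BVP.beta_eq_zero U w.2 (by omega)]
      show (if rgh (yN N) w.1 ∧ U < w.1 then vonMangoldt w.1 else 0) *
        (if rgh (yN N) w.2 ∧ U < w.2 then beta U w.2 else 0) = _
      rw [h7, h8]
    have e5 : cvl (rst N U fun k => eU U k) (rst N U fun _ => 1) j =
        ∑ w ∈ j.divisorsAntidiagonal, if U < w.1 ∧ U < w.2 then eU U w.1 else 0 := by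
      unfold cvl
      refine Finset.sum_congr rfl fun w hw => ?_
      show (if rgh (yN N) w.1 ∧ U < w.1 then eU U w.1 else 0) *
        (if rgh (yN N) w.2 ∧ U < w.2 then (1 : ℝ) else 0) = _
      by_cases h6 : U < w.1
      · by_cases h7 : U < w.2
        · rw [if_pos ⟨(hd w hw).1, h6⟩, if_pos ⟨(hd w hw).2, h7⟩, if_pos ⟨h6, h7⟩, mul_one]
        · rw [if_neg (fun h => h7 h.2 : ¬ (rgh (yN N) w.2 ∧ U < w.2)),
            if_neg (fun h => h7 h.2 : ¬ (U < w.1 ∧ U < w.2)), mul_zero]
      · rw [if_neg (fun h => h6 h.2 : ¬ (rgh (yN N) w.1 ∧ U < w.1)),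
          if_neg (fun h => h6 h.1 : ¬ (U < w.1 ∧ U < w.2)), zero_mul]
    have e6 : (trunc Mr U * (trunc vonMangoldt U * Zr)) j =
        (∑ w ∈ j.divisorsAntidiagonal, if w.1 ≤ U then eU U w.1 else 0) +
        (∑ w ∈ j.divisorsAntidiagonal, if w.2 ≤ U then eU U w.1 else 0) +
        ∑ w ∈ j.divisorsAntidiagonal, if U < w.1 ∧ U < w.2 then eU U w.1 else 0 := by
      rw [← mul_assoc, mul_apply, ← Finset.sum_add_distrib, ← Finset.sum_add_distrib]
      refine Finset.sum_congr rfl fun w hw => ?_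
      obtain ⟨h6, -⟩ := Nat.mem_divisorsAntidiagonal.1 hw
      have h7 : w.2 ≠ 0 := (hd w hw).2.1
      have h8 : Zr w.2 = 1 := by
        rw [natCoe_apply, zeta_apply_ne h7, Nat.cast_one]
      show eU U w.1 * Zr w.2 = _
      rw [h8, mul_one]
      by_cases h9 : w.1 ≤ U
      · have h10 : ¬ w.2 ≤ U := by
          intro h
          have : w.1 * w.2 ≤ U * U := Nat.mul_le_mul h9 h
          rw [h6] at this
          nlinarith
        rw [if_pos h9, if_neg h10, if_neg fun h => absurd h.1 (by omega)]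
        ring
      · by_cases h10 : w.2 ≤ U
        · rw [if_neg h9, if_pos h10, if_neg fun h => absurd h.2 (by omega)]
          ring
        · rw [if_neg h9, if_neg h10, if_pos ⟨by omega, by omega⟩]
          ring
    have e7 := congrArg (fun f : ArithmeticFunction ℝ => f j) (Pool.Agent.helper85.BVP.vaughan U U)
    have e8 : vonMangoldt j = trunc vonMangoldt U j + (trunc Mr U * ArithmeticFunction.log) j -
        (trunc Mr U * (trunc vonMangoldt U * Zr)) j + ((vonMangoldt - trunc vonMangoldt U) * beta U) j := e7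
    have e9 : trunc vonMangoldt U j = 0 := by
      rw [Pool.Agent.helper85.BVP.trunc_apply, if_neg (by omega)]
    unfold mnf tI tII
    rw [if_pos hr, ← hU, e1, e2, e3, e4, e5, e8, e9, e6]
    ring
  · -- not rough
    have e1 : cvl (rst N U fun b => vonMangoldt b) (rst N U fun k => beta U k) j = 0 := by
      refine Finset.sum_eq_zero fun w hw => ?_
      show (if rgh (yN N) w.1 ∧ U < w.1 then vonMangoldt w.1 else 0) *
        (if rgh (yN N) w.2 ∧ U < w.2 then beta U w.2 else 0) = _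
      by_cases h6 : rgh (yN N) w.1 ∧ U < w.1
      · have h7 : ¬ (rgh (yN N) w.2 ∧ U < w.2) := fun h => hr (VID_rgh' _ j w hw h6.1 h.1)
        rw [if_neg h7, mul_zero]
      · rw [if_neg h6, zero_mul]
    have e2 : cvl (rst N U fun k => eU U k) (rst N U fun _ => 1) j = 0 := by
      refine Finset.sum_eq_zero fun w hw => ?_
      show (if rgh (yN N) w.1 ∧ U < w.1 then eU U w.1 else 0) *
        (if rgh (yN N) w.2 ∧ U < w.2 then (1 : ℝ) else 0) = _
      by_cases h6 : rgh (yN N) w.1 ∧ U < w.1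
      · have h7 : ¬ (rgh (yN N) w.2 ∧ U < w.2) := fun h => hr (VID_rgh' _ j w hw h6.1 h.1)
        rw [if_neg h7, mul_zero]
      · rw [if_neg h6, zero_mul]
    unfold mnf tI tII edg tyI
    rw [if_neg hr, if_neg hr, if_neg hr, if_neg hr, ← hU, e1, e2]
    norm_num

end Pool.Agent.EC
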